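import Mathlib
import Pool.Agent.H.MP_3e8e5c_co.helper58.Union

/-!
# Graphs whose lower irredundance number drops under every edge deletion

For every `r ≥ 1` there is such a graph with `17 r` vertices and lower irredundance number `5 r`.
-/

set_option autoImplicit false

namespace Pool.Agent.Results.MP_3e8e5c_co.InfinitelyMany

/-- The closed neighbourhood `N[v]`. -/
def closedNbhd {V : Type*} (G : SimpleGraph V) (v : V) : Set V := {w | w = v ∨ G.Adj v w}

/-- `S` is irredundant: every `s ∈ S` has a private neighbour. -/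
def IsIrredundant {V : Type*} (G : SimpleGraph V) (S : Finset V) : Prop :=
  ∀ s ∈ S, (closedNbhd G s \ ⋃ u ∈ {u | u ∈ S ∧ u ≠ s}, closedNbhd G u).Nonempty

/-- The lower irredundance number: the least cardinality of a maximal irredundant set. -/
noncomputable def ir {V : Type*} (G : SimpleGraph V) : ℕ :=
  sInf {k : ℕ | ∃ S : Finset V, Maximal (IsIrredundant G) S ∧ S.card = k}

/-- `G` has an edge and the deletion of any edge lowers the lower irredundance number. -/
def Critical {V : Type*} (G : SimpleGraph V) : Prop :=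
  G.edgeSet.Nonempty ∧ ∀ e ∈ G.edgeSet, ir (G.deleteEdges {e}) < ir G

open Pool.Agent.H.MP_3e8e5c_co.helper58 in
lemma ir_eq {V : Type*} (G : SimpleGraph V) :
    ir G = Pool.Agent.H.MP_3e8e5c_co.helper58.ir G := rfl

open Pool.Agent.H.MP_3e8e5c_co.helper58 in
lemma irr_eq {n : ℕ} (G : SimpleGraph (Fin n)) : Irr G = Irred G := by
  funext T
  rw [eq_iff_iff, irred_iff]
  rfl

open Pool.Agent.H.MP_3e8e5c_co.helper58 in
lemma ir_gr : Pool.Agent.H.MP_3e8e5c_co.helper58.ir gr = 5 := by
  apply le_antisymm
  · have h1 : Maximal (Irr gr) (ofList 17 [0, 1, 2, 3, 16]) :=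
      maximal_of_maxB isNb_gr (rep_ofList (by decide)) check_max
    rw [irr_eq] at h1
    exact (ir_le h1).trans (card_ofList 17 [0, 1, 2, 3, 16])
  · obtain ⟨S, hS, hc⟩ := exists_maximal gr
    rw [← irr_eq] at hS
    rw [← hc]
    exact card_gt_of_allSub isNb_gr check_main hS

open Pool.Agent.H.MP_3e8e5c_co.helper58 in
lemma ir_delete {a b : Fin 17} (hab : gr.Adj a b) :
    Pool.Agent.H.MP_3e8e5c_co.helper58.ir (gr.deleteEdges {s(a, b)}) < 5 := by
  obtain ⟨T, hT, hc⟩ := exists_small' hab
  rw [irr_eq] at hT
  have := ir_le hT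
  omega

open Pool.Agent.H.MP_3e8e5c_co.helper58 in
/-- For every `r ≥ 1` there is a critical graph with `17 r` vertices and lower irredundance
number `5 r`. -/
theorem result : ∀ r : ℕ, 1 ≤ r →
    ∃ G : SimpleGraph (Fin r × Fin 17), Critical G ∧ ir G = 5 * r := by
  intro r hr
  have hir : ir (dU (fun _ : Fin r => gr)) = 5 * r := by
    rw [ir_eq, ir_dU]
    simp only [ir_gr, Finset.sum_const, Finset.card_univ, Fintype.card_fin, smul_eq_mul]
    ring
  have h08 : gr.Adj 0 8 := ⟨by decide, by decide +kernel⟩
  refine ⟨dU (fun _ => gr), ⟨⟨s((⟨0, hr⟩, 0), (⟨0, hr⟩, 8)), ?_⟩, ?_⟩, hir⟩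
  · rw [SimpleGraph.mem_edgeSet]
    exact ⟨rfl, h08⟩
  · intro e he
    induction e using Sym2.ind with
    | _ p q =>
      obtain ⟨i, a⟩ := p
      obtain ⟨j, b⟩ := q
      rw [SimpleGraph.mem_edgeSet] at he
      obtain ⟨hij, hab⟩ := he
      dsimp only at hij hab
      subst hij
      have h1 : (dU (fun _ : Fin r => gr)).deleteEdges {s((i, a), (i, b))} =
          dU (Function.update (fun _ : Fin r => gr) i (gr.deleteEdges {s(a, b)})) := by
        ext ⟨k, u⟩ ⟨l, v⟩
        rw [SimpleGraph.deleteEdges_adj]
        unfold dU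
        dsimp only
        by_cases hk : k = i
        · subst hk
          rw [Function.update_self, SimpleGraph.deleteEdges_adj]
          simp only [Set.mem_singleton_iff, Sym2.eq_iff, Prod.mk.injEq]
          constructor
          · rintro ⟨⟨rfl, h2⟩, h3⟩
            exact ⟨rfl, h2, fun h => h3 (by
              rcases h with h | h
              · exact Or.inl ⟨⟨trivial, h.1⟩, ⟨rfl, h.2⟩⟩
              · exact Or.inr ⟨⟨trivial, h.1⟩, ⟨rfl, h.2⟩⟩)⟩
          · rintro ⟨rfl, h2, h3⟩
            exact ⟨⟨rfl, h2⟩, fun h => h3 (by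
              rcases h with h | h
              · exact Or.inl ⟨h.1.2, h.2.2⟩
              · exact Or.inr ⟨h.1.2, h.2.2⟩)⟩
        · rw [Function.update_of_ne hk]
          simp only [Set.mem_singleton_iff, Sym2.eq_iff, Prod.mk.injEq]
          constructor
          · rintro ⟨h2, -⟩
            exact h2
          · rintro h2
            exact ⟨h2, fun h => by
              rcases h with h | h
              · exact hk h.1.1
              · exact hk h.1.1⟩
      rw [hir, ir_eq, h1, ir_dU, ← Finset.add_sum_erase Finset.univ _ (Finset.mem_univ i),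
        Function.update_self]
      have h2 : ∑ x ∈ Finset.univ.erase i, Pool.Agent.H.MP_3e8e5c_co.helper58.ir
          (Function.update (fun _ : Fin r => gr) i (gr.deleteEdges {s(a, b)}) x) = (r - 1) * 5 := by
        rw [Finset.sum_congr rfl (g := fun _ => 5)]
        · rw [Finset.sum_const, smul_eq_mul, Finset.card_erase_of_mem (Finset.mem_univ i),
            Finset.card_univ, Fintype.card_fin]
        · intro x hx
          rw [Finset.mem_erase] at hx
          rw [Function.update_of_ne hx.1, ir_gr]
      rw [h2]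
      have := ir_delete hab
      omega

end Pool.Agent.Results.MP_3e8e5c_co.InfinitelyMany
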